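import Pool.Agent.L5helper12.CV.Defs

/-! Residues of `zeta'/zeta * g` over the rectangle `[-1/2, 3/2] x [-U, U]`. -/

set_option autoImplicit false

open Filter Topology Set MeasureTheory Complex H370

namespace Pool.Agent.L5helper12.CV

lemma zeta_ne_left {s : ℂ} (h1 : -1 / 2 ≤ s.re) (h2 : s.re ≤ 0) : riemannZeta s ≠ 0 := by
  by_cases h0 : s = 0
  · rw [h0, riemannZeta_zero]; norm_num
  have hre : 1 ≤ (1 - s).re := by simp; linarith
  have hn : ∀ n : ℕ, (1 - s) ≠ -n := by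
    intro n hn
    have := congrArg Complex.re hn
    simp only [Complex.sub_re, Complex.one_re, Complex.neg_re, Complex.natCast_re] at this
    have hn0 : (0 : ℝ) ≤ n := Nat.cast_nonneg n
    linarith
  have hs1 : (1 - s) ≠ 1 := by
    intro h
    apply h0
    linear_combination -h
  have hfe := riemannZeta_one_sub hn hs1
  rw [sub_sub_cancel] at hfe
  rw [hfe]
  have hz := riemannZeta_ne_zero_of_one_le_re hre
  have hG := Complex.Gamma_ne_zero hn
  have hpi : (2 * (Real.pi : ℂ)) ≠ 0 := by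
    have := Real.pi_ne_zero
    simp [this]
  have hp : (2 * (Real.pi : ℂ)) ^ (-(1 - s)) ≠ 0 := by
    rw [Complex.cpow_def_of_ne_zero hpi]; exact Complex.exp_ne_zero _
  have hc : Complex.cos (Real.pi * (1 - s) / 2) ≠ 0 := by
    intro hc
    rw [Complex.cos_eq_zero_iff] at hc
    obtain ⟨k, hk⟩ := hc
    have hpi0 : (Real.pi : ℂ) ≠ 0 := by exact_mod_cast Real.pi_ne_zero
    have h3 : s = -2 * (k : ℂ) := by
      have h4 : (Real.pi : ℂ) * (1 - s) = (Real.pi : ℂ) * (2 * k + 1) := by linear_combination 2 * hk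
      have h5 := mul_left_cancel₀ hpi0 h4
      linear_combination -h5
    have h4 := congrArg Complex.re h3
    have h5 : (-2 * (k : ℂ)).re = -2 * (k : ℝ) := by simp
    rw [h5] at h4
    have h6 : (0 : ℝ) ≤ k := by linarith
    have h7 : (k : ℝ) ≤ 1 / 4 := by linarith
    have h8 : k = 0 := by
      have h9 : (k : ℝ) < 1 := by linarith
      have h10 : k < 1 := by exact_mod_cast h9
      have h11 : 0 ≤ k := by exact_mod_cast h6
      omega
    apply h0
    rw [h3, h8]; simp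
  exact mul_ne_zero (mul_ne_zero (mul_ne_zero (mul_ne_zero two_ne_zero hp) hG) hc) hz

lemma z1_zero {s : ℂ} (h1 : -1 / 2 ≤ s.re) (h : riemannZeta₁ s = 0) :
    s ≠ 1 ∧ riemannZeta s = 0 ∧ 0 < s.re ∧ s.re < 1 := by
  have hs : s ≠ 1 := by
    rintro rfl
    simp at h
  have hz : riemannZeta s = 0 := by rw [riemannZeta_eq_inv_sub_mul hs, h, mul_zero]
  refine ⟨hs, hz, ?_, ?_⟩
  · by_contra h2
    exact zeta_ne_left h1 (not_lt.1 h2) hz
  · by_contra h2
    exact riemannZeta_ne_zero_of_one_le_re (not_lt.1 h2) hz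

lemma z1_of_zero {s : ℂ} (hs : s.re < 1) (h : riemannZeta s = 0) : riemannZeta₁ s = 0 := by
  have hs1 : s ≠ 1 := by rintro rfl; simp at hs
  have h2 := riemannZeta_eq_inv_sub_mul hs1
  rw [h] at h2
  rcases mul_eq_zero.1 h2.symm with h3 | h3
  · exact absurd h3 (inv_ne_zero (sub_ne_zero.2 hs1))
  · exact h3

lemma mult_z1 {s : ℂ} (hs : s ≠ 1) : mult riemannZeta₁ s = mult riemannZeta s := by
  have he : riemannZeta =ᶠ[𝓝 s] ((fun z : ℂ => (z - 1)⁻¹) * riemannZeta₁) := by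
    filter_upwards [isOpen_ne.mem_nhds hs] with z hz
    exact riemannZeta_eq_inv_sub_mul hz
  have han : AnalyticAt ℂ (fun z : ℂ => (z - 1)⁻¹) s :=
    (by fun_prop : AnalyticAt ℂ (fun z : ℂ => z - 1) s).inv (sub_ne_zero.2 hs)
  have h0 : analyticOrderAt (fun z : ℂ => (z - 1)⁻¹) s = 0 :=
    han.analyticOrderAt_eq_zero.2 (inv_ne_zero (sub_ne_zero.2 hs))
  unfold mult analyticOrderNatAt
  rw [analyticOrderAt_congr he, analyticOrderAt_mul han (differentiable_riemannZeta₁.analyticAt s), h0,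
    zero_add]

lemma ld_z1 {s : ℂ} (hs : s ≠ 1) (h0 : riemannZeta₁ s ≠ 0) :
    ld s = deriv riemannZeta₁ s / riemannZeta₁ s - (s - 1)⁻¹ := by
  unfold ld
  rw [deriv_riemannZeta_eq_neg_inv_sub_sq_mul_add hs, riemannZeta_eq_inv_sub_mul hs]
  have := sub_ne_zero.2 hs
  field_simp
  ring

theorem resid (g : ℂ → ℂ) (hg : Differentiable ℂ g) (U : ℝ) (hU : good U) :
    (zsU U).Finite ∧
    (∫ x in (-1 / 2 : ℝ)..(3 / 2), ld (⟨x, -U⟩ : ℂ) * g ⟨x, -U⟩)
      - (∫ x in (-1 / 2 : ℝ)..(3 / 2), ld (⟨x, U⟩ : ℂ) * g ⟨x, U⟩)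
      + I * (∫ y in (-U)..U, ld (⟨3 / 2, y⟩ : ℂ) * g ⟨3 / 2, y⟩)
      - I * (∫ y in (-U)..U, ld (⟨-1 / 2, y⟩ : ℂ) * g ⟨-1 / 2, y⟩)
      = 2 * Real.pi * I * ((∑ s ∈ ZU U, (mult riemannZeta s : ℂ) * g s) - g 1) := by
  obtain ⟨hU2, hgood⟩ := hU
  have hU0 : 0 < U := by linarith
  have hgoodm : ∀ σ ∈ Icc (-1 / 2 : ℝ) (3 / 2), riemannZeta (⟨σ, -U⟩ : ℂ) ≠ 0 := by
    intro σ hσ h
    apply hgood σ hσ
    have e : (⟨σ, -U⟩ : ℂ) = (starRingEnd ℂ) ⟨σ, U⟩ := by apply Complex.ext <;> simp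
    rw [e, riemannZeta_conj] at h
    simpa using h
  have hnz : ∀ s ∈ Icc (-1 / 2 : ℝ) (3 / 2) ×ℂ Icc (-U) U, riemannZeta₁ s = 0 →
      s ∈ Ioo (-1 / 2 : ℝ) (3 / 2) ×ℂ Ioo (-U) U := by
    rintro s ⟨hs1, hs2⟩ h0
    rw [mem_preimage] at hs1 hs2
    obtain ⟨h1, h2, h3, h4⟩ := z1_zero hs1.1 h0
    refine ⟨⟨by linarith, by linarith⟩, ?_, ?_⟩
    · rcases hs2.1.eq_or_lt with h | h
      · exact absurd h2 (by
          have := hgoodm s.re hs1
          rw [h] at this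
          exact this)
      · exact h
    · rcases hs2.2.eq_or_lt with h | h
      · exact absurd h2 (by
          have := hgood s.re hs1
          rw [← h] at this
          exact this)
      · exact h
  obtain ⟨hfin, hres⟩ := H370.rect_residue riemannZeta₁ g (-1 / 2) (3 / 2) (-U) U (by norm_num)
    (by linarith) (fun z _ => differentiable_riemannZeta₁.analyticAt z) hg hnz
  have hset : {s : ℂ | s ∈ Ioo (-1 / 2 : ℝ) (3 / 2) ×ℂ Ioo (-U) U ∧ riemannZeta₁ s = 0} = zsU U := by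
    ext s
    constructor
    · rintro ⟨⟨hs1, hs2⟩, h0⟩
      rw [mem_preimage] at hs1 hs2
      obtain ⟨h1, h2, h3, h4⟩ := z1_zero hs1.1.le h0
      exact ⟨h3, h4, abs_lt.2 ⟨hs2.1, hs2.2⟩, h2⟩
    · rintro ⟨h1, h2, h3, h4⟩
      have h5 := abs_lt.1 h3
      exact ⟨⟨⟨by linarith, by linarith⟩, h5.1, h5.2⟩, z1_of_zero h2 h4⟩
  rw [hset] at hfin hres
  refine ⟨hfin, ?_⟩
  have hsum : ∑ᶠ s ∈ zsU U, (mult riemannZeta₁ s : ℂ) * g s = ∑ s ∈ ZU U, (mult riemannZeta s : ℂ) * g s := by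
    rw [finsum_mem_eq_finite_toFinset_sum _ hfin]
    unfold ZU
    rw [dif_pos hfin]
    apply Finset.sum_congr rfl
    intro s hs
    rw [Set.Finite.mem_toFinset] at hs
    have hs1 : s ≠ 1 := by
      rintro rfl
      have := hs.2.1
      simp at this
    rw [mult_z1 hs1]
  rw [hsum] at hres
  have h1mem : (1 : ℂ) ∈ Ioo (-1 / 2 : ℝ) (3 / 2) ×ℂ Ioo (-U) U := by
    refine ⟨⟨?_, ?_⟩, ?_, ?_⟩
    · simp; norm_num
    · simp; norm_num
    · simpa using hU0
    · simpa using hU0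
  have hB1 : ∀ s ∈ Bd (-1 / 2) (3 / 2) (-U) U, s ≠ 1 := fun s hs he => Bd_not_Ioo hs (he ▸ h1mem)
  have hB0 : ∀ s ∈ Bd (-1 / 2) (3 / 2) (-U) U, riemannZeta₁ s ≠ 0 := fun s hs h0 =>
    Bd_not_Ioo hs (hnz s (Bd_sub (by norm_num) (by linarith) hs) h0)
  have hpole := RI_cauchy (a := -1 / 2) (b := 3 / 2) (c := -U) (d := U) (by norm_num) (by linarith) hg h1mem
  have hc1 : ContinuousOn (fun s => deriv riemannZeta₁ s / riemannZeta₁ s * g s) (Bd (-1 / 2) (3 / 2) (-U) U) := by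
    apply ContinuousOn.mul _ hg.continuous.continuousOn
    apply ContinuousOn.div _ differentiable_riemannZeta₁.continuous.continuousOn hB0
    exact (differentiable_riemannZeta₁.deriv).continuous.continuousOn
  have hc2 : ContinuousOn (fun s => (-1 : ℂ) * (g s * (s - 1)⁻¹)) (Bd (-1 / 2) (3 / 2) (-U) U) := by
    apply ContinuousOn.mul continuousOn_const
    apply ContinuousOn.mul hg.continuous.continuousOn
    apply ContinuousOn.inv₀ (by fun_prop)
    intro s hs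
    exact sub_ne_zero.2 (hB1 s hs)
  have hsplit : RI (-1 / 2) (3 / 2) (-U) U (fun s => ld s * g s) =
      RI (-1 / 2) (3 / 2) (-U) U (fun s => deriv riemannZeta₁ s / riemannZeta₁ s * g s +
        (-1 : ℂ) * (g s * (s - 1)⁻¹)) := by
    apply RI_congr (by norm_num) (by linarith)
    intro s hs
    rw [ld_z1 (hB1 s hs) (hB0 s hs)]
    ring
  rw [RI_add (by norm_num) (by linarith) hc1 hc2, RI_const_mul, hpole] at hsplit
  have hr2 : RI (-1 / 2) (3 / 2) (-U) U (fun s => deriv riemannZeta₁ s / riemannZeta₁ s * g s) =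
      2 * Real.pi * I * ∑ s ∈ ZU U, (mult riemannZeta s : ℂ) * g s := hres
  rw [hr2] at hsplit
  have hfinal : RI (-1 / 2) (3 / 2) (-U) U (fun s => ld s * g s) =
      2 * Real.pi * I * ((∑ s ∈ ZU U, (mult riemannZeta s : ℂ) * g s) - g 1) := by
    rw [hsplit]; ring
  exact hfinal

end Pool.Agent.L5helper12.CV
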